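import Pool.Agent.BEJ.Stmts

/-!
# Squad BEJ: row QDE
-/

namespace Pool.Agent.BEJ.H21

open Set Filter Topology MeasureTheory
open Pool.Agent.BEJ

noncomputable section

theorem gint (j : ℕ) (x : ℝ) (hx : 0 < x) :
    Integrable (fun t : ℝ => t ^ (2 * j) * Real.exp (-x * t ^ 2)) := by
  have h := integrable_rpow_mul_exp_neg_mul_sq hx (s := ((2 * j : ℕ) : ℝ))
    (by have : (0 : ℝ) ≤ ((2 * j : ℕ) : ℝ) := Nat.cast_nonneg _
        linarith)
  simpa only [Real.rpow_natCast] using h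

theorem fnorm (EEB : EebStmt) (j : ℕ) (x t : ℝ) :
    ‖((t ^ (2 * j) * Real.exp (-x * t ^ 2) : ℝ) : ℂ) * EE t‖ ≤
      t ^ (2 * j) * Real.exp (-x * t ^ 2) := by
  have h0 : 0 ≤ t ^ (2 * j) * Real.exp (-x * t ^ 2) := by
    rw [pow_mul]; positivity
  rw [norm_mul, Complex.norm_real, Real.norm_eq_abs, abs_of_nonneg h0]
  exact mul_le_of_le_one_right h0 (EEB.1 t)

theorem fcont (EEB : EebStmt) (j : ℕ) (x : ℝ) :
    Continuous (fun t : ℝ => ((t ^ (2 * j) * Real.exp (-x * t ^ 2) : ℝ) : ℂ) * EE t) := by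
  refine Continuous.mul (Complex.continuous_ofReal.comp (by fun_prop)) EEB.2.2.1

theorem fint (EEB : EebStmt) (j : ℕ) (x : ℝ) (hx : 0 < x) :
    IntegrableOn (fun t : ℝ => ((t ^ (2 * j) * Real.exp (-x * t ^ 2) : ℝ) : ℂ) * EE t) (Ioi 0) := by
  refine Integrable.mono' (gint j x hx).integrableOn (fcont EEB j x).aestronglyMeasurable ?_
  exact Filter.Eventually.of_forall (fun t => fnorm EEB j x t)

theorem fder (EEB : EebStmt) (j : ℕ) (x : ℝ) (hx : 0 < x) :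
    HasDerivAt (QQ j) (- QQ (j + 1) x) x := by
  have h := hasDerivAt_integral_of_dominated_loc_of_deriv_le (μ := volume.restrict (Ioi (0 : ℝ)))
    (F := fun (y : ℝ) (t : ℝ) => ((t ^ (2 * j) * Real.exp (-y * t ^ 2) : ℝ) : ℂ) * EE t)
    (F' := fun (y : ℝ) (t : ℝ) => -(((t ^ (2 * (j + 1)) * Real.exp (-y * t ^ 2) : ℝ) : ℂ) * EE t))
    (x₀ := x) (s := Ioi (x / 2)) (bound := fun t => t ^ (2 * (j + 1)) * Real.exp (-(x / 2) * t ^ 2))
    (Ioi_mem_nhds (by linarith))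
    (Filter.Eventually.of_forall fun y => (fcont EEB j y).aestronglyMeasurable)
    (fint EEB j x hx) (fcont EEB (j + 1) x).neg.aestronglyMeasurable
    (Filter.Eventually.of_forall fun t y hy => by
      rw [norm_neg]
      refine (fnorm EEB (j + 1) y t).trans ?_
      have h1 : (0 : ℝ) ≤ t ^ (2 * (j + 1)) := by rw [pow_mul]; positivity
      refine mul_le_mul_of_nonneg_left (Real.exp_le_exp.2 ?_) h1
      have h2 : x / 2 < y := hy
      have h3 := sq_nonneg t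
      nlinarith)
    (gint (j + 1) (x / 2) (by linarith)).integrableOn
    (Filter.Eventually.of_forall fun t y _ => by
      have h1 : HasDerivAt (fun y : ℝ => t ^ (2 * j) * Real.exp (-y * t ^ 2))
          (-(t ^ (2 * (j + 1)) * Real.exp (-y * t ^ 2))) y := by
        have h2 : HasDerivAt (fun y : ℝ => -y * t ^ 2) (-1 * t ^ 2) y :=
          (hasDerivAt_id y).neg.mul_const _
        have h3 := (h2.exp).const_mul (t ^ (2 * j))
        have e : t ^ (2 * j) * (Real.exp (-y * t ^ 2) * (-1 * t ^ 2)) =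
            -(t ^ (2 * (j + 1)) * Real.exp (-y * t ^ 2)) := by ring
        rw [e] at h3
        exact h3
      have h4 := (h1.ofReal_comp).mul_const (EE t)
      have e : ((-(t ^ (2 * (j + 1)) * Real.exp (-y * t ^ 2)) : ℝ) : ℂ) * EE t =
          -(((t ^ (2 * (j + 1)) * Real.exp (-y * t ^ 2) : ℝ) : ℂ) * EE t) := by
        push_cast; ring
      rw [e] at h4
      exact h4)
  have h2 := h.2
  rw [integral_neg] at h2
  exact h2

/-- The primitive. -/
def GG (x t : ℝ) : ℂ :=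
  (Real.exp (-x * t ^ 2) : ℂ) * (-((t : ℂ) / 2) * ((t : ℂ) ^ 2 - 2 * Complex.I) * EE t)

theorem one_ne (t : ℝ) : 1 + Complex.I * (t : ℂ) ^ 2 / 2 ≠ 0 := by
  intro h
  have e : 1 + Complex.I * (t : ℂ) ^ 2 / 2 =
      ((1 : ℝ) : ℂ) + ((t ^ 2 / 2 : ℝ) : ℂ) * Complex.I := by push_cast; ring
  rw [e] at h
  have h2 := congrArg Complex.re h
  rw [Complex.add_re, Complex.ofReal_re, Complex.re_ofReal_mul, Complex.I_re, mul_zero,
    Complex.zero_re] at h2
  norm_num at h2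

theorem canc (D a b : ℂ) (h : D ≠ 0) : a * D * (b / D) = a * b := by field_simp

theorem GGder (EEB : EebStmt) (x t : ℝ) : HasDerivAt (GG x)
    ((Real.exp (-x * t ^ 2) : ℂ) * (((x : ℂ) * (t : ℂ) ^ 4 -
      (2 * Complex.I * x + 1) * (t : ℂ) ^ 2 + Complex.I) * EE t)) t := by
  have h1 : HasDerivAt (fun s : ℝ => (Real.exp (-x * s ^ 2) : ℂ))
      ((Real.exp (-x * t ^ 2) * (-x * (2 * t)) : ℝ) : ℂ) t := by
    have h2 : HasDerivAt (fun s : ℝ => -x * s ^ 2) (-x * (2 * t)) t := by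
      have := (hasDerivAt_pow 2 t).const_mul (-x)
      simpa using this
    exact (h2.exp).ofReal_comp
  have hid : HasDerivAt (fun s : ℝ => (s : ℂ)) 1 t := by
    have := (hasDerivAt_id t).ofReal_comp
    simpa using this
  have h3 : HasDerivAt (fun s : ℝ => -((s : ℂ) / 2) * ((s : ℂ) ^ 2 - 2 * Complex.I))
      (-((1 : ℂ) / 2) * ((t : ℂ) ^ 2 - 2 * Complex.I) + -((t : ℂ) / 2) * (2 * (t : ℂ))) t := by
    have h4 : HasDerivAt (fun s : ℝ => -((s : ℂ) / 2)) (-((1 : ℂ) / 2)) t := (hid.div_const 2).neg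
    have h5 : HasDerivAt (fun s : ℝ => (s : ℂ) ^ 2 - 2 * Complex.I) (2 * (t : ℂ)) t := by
      have := (hid.fun_pow 2).sub_const (2 * Complex.I)
      simpa using this
    exact h4.mul h5
  have h6 := h1.mul (h3.mul (EEB.2.2.2.1 t))
  have hne := one_ne t
  have e : ((Real.exp (-x * t ^ 2) * (-x * (2 * t)) : ℝ) : ℂ) *
      (-((t : ℂ) / 2) * ((t : ℂ) ^ 2 - 2 * Complex.I) * EE t) +
      (Real.exp (-x * t ^ 2) : ℂ) *
      ((-((1 : ℂ) / 2) * ((t : ℂ) ^ 2 - 2 * Complex.I) + -((t : ℂ) / 2) * (2 * (t : ℂ))) * EE t +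
      -((t : ℂ) / 2) * ((t : ℂ) ^ 2 - 2 * Complex.I) *
      (-(Complex.I * t / 2) / (1 + Complex.I * (t : ℂ) ^ 2 / 2) * EE t)) =
      (Real.exp (-x * t ^ 2) : ℂ) * (((x : ℂ) * (t : ℂ) ^ 4 -
      (2 * Complex.I * x + 1) * (t : ℂ) ^ 2 + Complex.I) * EE t) := by
    have hI : Complex.I ^ 2 = -1 := Complex.I_sq
    have e1 : (t : ℂ) ^ 2 - 2 * Complex.I = -2 * Complex.I * (1 + Complex.I * (t : ℂ) ^ 2 / 2) := by
      linear_combination ((t : ℂ) ^ 2) * hI
    have e2 : ((t : ℂ) ^ 2 - 2 * Complex.I) * (-(Complex.I * t / 2) /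
        (1 + Complex.I * (t : ℂ) ^ 2 / 2)) = -(t : ℂ) := by
      rw [e1, canc _ _ _ hne]
      linear_combination (t : ℂ) * hI
    have e3 : -((t : ℂ) / 2) * ((t : ℂ) ^ 2 - 2 * Complex.I) *
      (-(Complex.I * t / 2) / (1 + Complex.I * (t : ℂ) ^ 2 / 2) * EE t) =
      (t : ℂ) ^ 2 / 2 * EE t := by
      linear_combination (-((t : ℂ) / 2) * EE t) * e2
    rw [e3]
    push_cast
    ring
  rw [← e]
  exact h6

theorem GGlim (EEB : EebStmt) (x : ℝ) (hx : 0 < x) : Tendsto (GG x) atTop (𝓝 0) := by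
  have h := tendsto_rpow_mul_exp_neg_mul_atTop_nhds_zero 3 x hx
  have h2 := h.const_mul (3 / 2)
  rw [mul_zero] at h2
  rw [tendsto_zero_iff_norm_tendsto_zero]
  refine squeeze_zero' (Filter.Eventually.of_forall fun t => norm_nonneg _) ?_ h2
  filter_upwards [eventually_ge_atTop (1 : ℝ)] with t ht
  have e3 : t ^ (3 : ℝ) = t ^ 3 := by
    rw [show (3 : ℝ) = ((3 : ℕ) : ℝ) by norm_num, Real.rpow_natCast]
  rw [e3]
  unfold GG
  rw [norm_mul, norm_mul, norm_mul, norm_neg, norm_div, Complex.norm_real, Complex.norm_real,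
    Real.norm_eq_abs, Real.norm_eq_abs, abs_of_pos (Real.exp_pos _), abs_of_pos (by linarith)]
  have h4 : ‖(t : ℂ) ^ 2 - 2 * Complex.I‖ ≤ t ^ 2 + 2 := by
    refine (norm_sub_le _ _).trans ?_
    rw [norm_pow, norm_mul, Complex.norm_I, Complex.norm_real, Real.norm_eq_abs,
      abs_of_pos (by linarith)]
    simp
  have h5 := EEB.1 t
  have h6 : Real.exp (-x * t ^ 2) ≤ Real.exp (-x * t) := by
    apply Real.exp_le_exp.2
    nlinarith [mul_nonneg hx.le (mul_nonneg (by linarith : (0 : ℝ) ≤ t) (by linarith : (0 : ℝ) ≤ t - 1))]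
  have h7 : ‖(2 : ℂ)‖ = 2 := by simp
  rw [h7]
  calc Real.exp (-x * t ^ 2) * (t / 2 * ‖(t : ℂ) ^ 2 - 2 * Complex.I‖ * ‖EE t‖)
      ≤ Real.exp (-x * t) * (t / 2 * (t ^ 2 + 2) * 1) := by gcongr
    _ ≤ 3 / 2 * (t ^ 3 * Real.exp (-x * t)) := by
      have h8 : t / 2 * (t ^ 2 + 2) * 1 ≤ 3 / 2 * t ^ 3 := by nlinarith [sq_nonneg t]
      have := mul_le_mul_of_nonneg_left h8 (Real.exp_pos (-x * t)).le
      linarith

theorem qde (EEB : EebStmt) : QdeStmt := by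
  refine ⟨fun j x hx => fint EEB j x hx, fun j x hx => fder EEB j x hx, fun x hx => ?_⟩
  have h0 := fint EEB 0 x hx
  have h1 := fint EEB 1 x hx
  have h2 := fint EEB 2 x hx
  have e : ∀ t : ℝ, (Real.exp (-x * t ^ 2) : ℂ) * (((x : ℂ) * (t : ℂ) ^ 4 -
      (2 * Complex.I * x + 1) * (t : ℂ) ^ 2 + Complex.I) * EE t) =
      (x : ℂ) * (((t ^ (2 * 2) * Real.exp (-x * t ^ 2) : ℝ) : ℂ) * EE t) -
      (2 * Complex.I * x + 1) * (((t ^ (2 * 1) * Real.exp (-x * t ^ 2) : ℝ) : ℂ) * EE t) +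
      Complex.I * (((t ^ (2 * 0) * Real.exp (-x * t ^ 2) : ℝ) : ℂ) * EE t) := by
    intro t
    push_cast
    ring
  have hi : IntegrableOn (fun t : ℝ => (Real.exp (-x * t ^ 2) : ℂ) * (((x : ℂ) * (t : ℂ) ^ 4 -
      (2 * Complex.I * x + 1) * (t : ℂ) ^ 2 + Complex.I) * EE t)) (Ioi 0) := by
    simp_rw [e]
    exact ((h2.const_mul _).sub (h1.const_mul _)).add (h0.const_mul _)
  have h := integral_Ioi_of_hasDerivAt_of_tendsto (a := (0 : ℝ)) (m := (0 : ℂ)) (f := GG x)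
    (GGder EEB x 0).continuousAt.continuousWithinAt (fun t _ => GGder EEB x t) hi (GGlim EEB x hx)
  have hz : GG x 0 = 0 := by unfold GG; simp
  rw [hz, sub_zero] at h
  rw [← h]
  unfold QQ
  simp_rw [e]
  have h3 : Integrable (fun t : ℝ =>
      (x : ℂ) * (((t ^ (2 * 2) * Real.exp (-x * t ^ 2) : ℝ) : ℂ) * EE t) -
      (2 * Complex.I * x + 1) * (((t ^ (2 * 1) * Real.exp (-x * t ^ 2) : ℝ) : ℂ) * EE t))
      (volume.restrict (Ioi (0 : ℝ))) := (h2.const_mul _).sub (h1.const_mul _)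
  rw [integral_add h3 (h0.const_mul _), integral_sub (h2.const_mul _) (h1.const_mul _),
    integral_const_mul, integral_const_mul, integral_const_mul]

end

end Pool.Agent.BEJ.H21
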